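import Pool.Agent.W475.BH.Stm

set_option autoImplicit false

/-! # Counting zeros: monotonicity, additivity, change of variable -/

namespace Pool.Agent.W475.BH

open Complex MeasureTheory Filter Topology

/-- An entire function which is not identically zero has finitely many zeros in a bounded set. -/
lemma supp_finite {f : ℂ → ℂ} (hf : Differentiable ℂ f) (h0 : ∃ z, f z ≠ 0) {A : Set ℂ}
    (hA : Bornology.IsBounded A) : (A ∩ Function.support (analyticOrderNatAt f)).Finite := by
  obtain ⟨R, hR⟩ := hA.subset_closedBall (0 : ℂ)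
  have hsub : A ∩ Function.support (analyticOrderNatAt f) ⊆ Metric.closedBall (0 : ℂ) R ∩ {z | f z = 0} := by
    rintro z ⟨hz1, hz2⟩
    refine ⟨hR hz1, ?_⟩
    exact apply_eq_zero_of_analyticOrderNatAt_ne_zero hz2
  refine Set.Finite.subset ?_ hsub
  have han : AnalyticOnNhd ℂ f Set.univ := fun z _ => hf.analyticAt z
  by_contra hinf
  have hinf' : (Metric.closedBall (0 : ℂ) R ∩ {z | f z = 0}).Infinite := hinf
  obtain ⟨x, _, hx⟩ := hinf'.exists_accPt_of_subset_isCompact (isCompact_closedBall (0 : ℂ) R)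
    Set.inter_subset_left
  have hfr : ∃ᶠ z in 𝓝[≠] x, f z = 0 := by
    have := (accPt_iff_frequently_nhdsNE).1 hx
    exact this.mono fun z hz => hz.2
  have := han.eqOn_zero_of_preconnected_of_frequently_eq_zero isPreconnected_univ (Set.mem_univ x) hfr
  obtain ⟨z, hz⟩ := h0
  exact hz (this (Set.mem_univ z))

lemma nz_mono {f : ℂ → ℂ} (hf : Differentiable ℂ f) (h0 : ∃ z, f z ≠ 0) {A B : Set ℂ}
    (hB : Bornology.IsBounded B) (hAB : A ⊆ B) : nz f A ≤ nz f B := by
  unfold nz
  have hfB := supp_finite hf h0 hB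
  have hfA := supp_finite hf h0 (hB.subset hAB)
  rw [finsum_mem_eq_sum _ hfA, finsum_mem_eq_sum _ hfB]
  refine Finset.sum_le_sum_of_subset ?_
  intro z hz
  simp only [Set.Finite.mem_toFinset] at hz ⊢
  exact ⟨hAB hz.1, hz.2⟩

lemma nz_union {f : ℂ → ℂ} (hf : Differentiable ℂ f) (h0 : ∃ z, f z ≠ 0) {A B : Set ℂ}
    (hA : Bornology.IsBounded A) (hB : Bornology.IsBounded B) (hAB : Disjoint A B) :
    nz f (A ∪ B) = nz f A + nz f B := by
  unfold nz
  exact finsum_mem_union' hAB (supp_finite hf h0 hA) (supp_finite hf h0 hB)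

lemma nz_iUnion {f : ℂ → ℂ} (hf : Differentiable ℂ f) (h0 : ∃ z, f z ≠ 0) {ι : Type*}
    (s : Finset ι) (A : ι → Set ℂ) (hA : ∀ i ∈ s, Bornology.IsBounded (A i))
    (hd : ∀ i ∈ s, ∀ j ∈ s, i ≠ j → Disjoint (A i) (A j)) :
    nz f (⋃ i ∈ s, A i) = ∑ i ∈ s, nz f (A i) := by
  classical
  induction s using Finset.induction_on with
  | empty => simp [nz]
  | insert a s ha ih =>
    rw [Finset.set_biUnion_insert, Finset.sum_insert ha, ← ih (fun i hi => hA i (by simp [hi]))
      (fun i hi j hj hij => hd i (by simp [hi]) j (by simp [hj]) hij)]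
    refine nz_union hf h0 (hA a (by simp)) ?_ ?_
    · rw [Bornology.isBounded_biUnion_finset]
      exact fun i hi => hA i (by simp [hi])
    · simp only [Set.disjoint_iUnion_right]
      intro i hi
      exact hd a (by simp) i (by simp [hi]) (by rintro rfl; exact ha hi)

/-- Zeros outside the zero set do not count. -/
lemma nz_eq_of_zeros {f : ℂ → ℂ} {A B : Set ℂ} (h : ∀ z, f z = 0 → (z ∈ A ↔ z ∈ B)) :
    nz f A = nz f B := by
  unfold nz
  refine finsum_congr fun z => ?_
  by_cases hz : f z = 0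
  · have := h z hz
    by_cases hA : z ∈ A
    · simp [hA, this.1 hA]
    · have hB : z ∉ B := fun hB => hA (this.2 hB)
      simp [hA, hB]
  · have : analyticOrderNatAt f z = 0 := by
      by_contra hne
      exact hz (apply_eq_zero_of_analyticOrderNatAt_ne_zero hne)
    simp [this]

lemma order_affine {f : ℂ → ℂ} (hf : Differentiable ℂ f) {c m k : ℂ} (hm : m ≠ 0) (hk : k ≠ 0) (z : ℂ) :
    analyticOrderNatAt (fun z => k * f (c + m * z)) z = analyticOrderNatAt f (c + m * z) := by
  have hg : AnalyticAt ℂ (fun z : ℂ => c + m * z) z := by fun_prop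
  have hd : deriv (fun z : ℂ => c + m * z) z ≠ 0 := by
    have : HasDerivAt (fun z : ℂ => c + m * z) m z := by
      simpa using ((hasDerivAt_id z).const_mul m).const_add c
    rw [this.deriv]; exact hm
  have h1 : analyticOrderAt (f ∘ fun z : ℂ => c + m * z) z = analyticOrderAt f (c + m * z) :=
    analyticOrderAt_comp_of_deriv_ne_zero hg hd
  have hk' : AnalyticAt ℂ (fun _ : ℂ => k) z := analyticAt_const
  have hfc : AnalyticAt ℂ (f ∘ fun z : ℂ => c + m * z) z := (hf.analyticAt _).comp hg
  have h2 : analyticOrderAt ((fun _ : ℂ => k) * (f ∘ fun z : ℂ => c + m * z)) z =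
      analyticOrderAt f (c + m * z) := by
    rw [analyticOrderAt_mul hk' hfc, h1]
    have : analyticOrderAt (fun _ : ℂ => k) z = 0 := by
      rw [analyticOrderAt_eq_zero]; right; exact hk
    rw [this, zero_add]
  unfold analyticOrderNatAt
  exact congrArg ENat.toNat h2

/-- Affine change of variable. -/
lemma nz_affine {f : ℂ → ℂ} (hf : Differentiable ℂ f) {c m k : ℂ} (hm : m ≠ 0) (hk : k ≠ 0)
    (A : Set ℂ) : nz (fun z => k * f (c + m * z)) {z | c + m * z ∈ A} = nz f A := by
  unfold nz
  refine finsum_mem_eq_of_bijOn (fun z => c + m * z) ⟨fun z hz => hz, ?_, ?_⟩ fun z _ =>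
    order_affine hf hm hk z
  · intro x _ y _ hxy
    have : m * x = m * y := by simpa using hxy
    exact mul_left_cancel₀ hm this
  · intro w hw
    refine ⟨(w - c) / m, ?_, ?_⟩
    · simpa [mul_div_cancel₀ _ hm] using hw
    · simp [mul_div_cancel₀ _ hm]

end Pool.Agent.W475.BH
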