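import Mathlib

set_option autoImplicit false

/-!
# Zeros of the backward heat flow of the Riemann xi function: the pieces

`Ht t z = ∫_0^∞ e^{t u²} Φ(u) cos (z u) du` (de Bruijn-Newman).  THEOREM: for every `t < 0` the zeros of
`Ht t` in the disc of radius `R` have heights `Im z` asymptotically uniformly distributed in
`[-(|t|/2) log R, (|t|/2) log R]`.  We write `t = -4 κ` and use the variable `I z / 2`.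
Every task is one `Prop` below.
-/

namespace Pool.Agent.W475.BH

open Complex MeasureTheory Filter Topology

/-! ## Objects -/

/-- The de Bruijn-Newman kernel. -/
noncomputable def Phi (u : ℝ) : ℝ := ∑' n : ℕ,
  (2 * Real.pi ^ 2 * ((n : ℝ) + 1) ^ 4 * Real.exp (9 * u) -
    3 * Real.pi * ((n : ℝ) + 1) ^ 2 * Real.exp (5 * u)) *
    Real.exp (-(Real.pi * ((n : ℝ) + 1) ^ 2 * Real.exp (4 * u)))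

/-- The de Bruijn-Newman family. -/
noncomputable def Ht (t : ℝ) (z : ℂ) : ℂ :=
  ∫ u in Set.Ioi (0 : ℝ), ((Real.exp (t * u ^ 2) * Phi u : ℝ) : ℂ) * Complex.cos (z * u)

/-- The first piece of the kernel (variable doubled). -/
noncomputable def ph (v : ℝ) : ℝ :=
  (2 * Real.pi ^ 2 * Real.exp (9 / 2 * v) - 3 * Real.pi * Real.exp (5 / 2 * v)) *
    Real.exp (-(Real.pi * Real.exp (2 * v)))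

/-- The backward heat flow of the gamma factor. -/
noncomputable def GG (κ : ℝ) (z : ℂ) : ℂ :=
  16 * ∫ v : ℝ, ((ph v * Real.exp (-(κ * v ^ 2)) : ℝ) : ℂ) * cexp (z * v)

/-- The `n`-th term (`n = 0, 1, 2, ...` stands for `1, 2, 3, ...`) of the backward heat flow. -/
noncomputable def XT (κ : ℝ) (z : ℂ) (n : ℕ) : ℂ :=
  ((n : ℂ) + 1) ^ (-(1 / 2) - z) * ((Real.exp (-(κ * Real.log ((n : ℝ) + 1) ^ 2)) : ℝ) : ℂ) *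
    GG κ (z + ((2 * κ * Real.log ((n : ℝ) + 1) : ℝ) : ℂ))

/-- The backward heat flow `e^{-κ D²}` of `8 ξ (1/2 + z)`; its symmetry line is `Re z = 0`. -/
noncomputable def XK (κ : ℝ) (z : ℂ) : ℂ := ∑' n : ℕ, XT κ z n

/-- The gamma factor: `8 ξ (1/2 + z) = HH z * ζ (1/2 + z)`. -/
noncomputable def HH (z : ℂ) : ℂ := (4 * z ^ 2 - 1) * Gammaℝ (1 / 2 + z)

noncomputable def be (t : ℝ) : ℂ := logDeriv HH (I * t)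

/-- The `n`-th term (`n ≥ 1`) of the local expansion of `XK κ (I t + u) / HH (I t)`. -/
noncomputable def tm (κ t : ℝ) (u : ℂ) (n : ℕ) : ℂ :=
  (n : ℂ) ^ (-(1 / 2) - I * t) *
    cexp ((be t - (Real.log n : ℂ)) * u - (κ : ℂ) * (be t - (Real.log n : ℂ)) ^ 2)

/-- The profile: `log ‖XK κ (I t + u) / HH (I t)‖` is about `(log t)² Vh κ (re u / log t)`. -/
noncomputable def Vh (κ X : ℝ) : ℝ := if |X| ≤ κ then X ^ 2 / (4 * κ) else |X| / 2 - κ / 4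

/-- The local Dirichlet series near `n = exp lam`. -/
noncomputable def SS (κ lam t : ℝ) : ℂ := ∑' n : ℕ,
  cexp (I * ((κ * Real.pi / 2 * Real.log ((n : ℝ) + 1) : ℝ) : ℂ)) *
    ((n : ℂ) + 1) ^ (-(1 / 2) - I * t) *
    ((Real.exp (-(κ * (Real.log ((n : ℝ) + 1) - lam) ^ 2)) : ℝ) : ℂ)

/-- The number of zeros in `A`, with multiplicity. -/
noncomputable def nz (f : ℂ → ℂ) (A : Set ℂ) : ℕ := ∑ᶠ z ∈ A, analyticOrderNatAt f z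

/-! ## A. The expansion and the gamma factor -/

/-- Task EXP. -/
def S_EXP : Prop := ∀ κ : ℝ, 0 < κ → ∀ z : ℂ,
  Summable (fun n => ‖XT κ z n‖) ∧ Ht (-(4 * κ)) z = XK κ (I * z / 2) / 64

/-- Task SYM. -/
def S_SYM : Prop := ∀ κ : ℝ, 0 < κ → Differentiable ℂ (XK κ) ∧ XK κ 0 ≠ 0 ∧
  (∀ z, XK κ (-z) = XK κ z) ∧ (∀ z, XK κ ((starRingEnd ℂ) z) = (starRingEnd ℂ) (XK κ z)) ∧
  ∃ C : ℝ, 0 < C ∧ ∀ z : ℂ, ‖XK κ z‖ ≤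
    Real.exp (|z.re| / 2 * Real.log (2 + ‖z‖) + C * (1 + ‖z‖))

/-- Task STIR (the first four clauses are `SStir2` of `Pool.Agent.H986R2.DBN.Stir2`). -/
def S_STIR : Prop := ∃ K T0 : ℝ, 1 ≤ K ∧ 1 ≤ T0 ∧ ∀ t : ℝ, T0 ≤ t →
  HH (I * t) ≠ 0 ∧ ‖be t - ((Real.log (t / (2 * Real.pi)) / 2 : ℝ) + I * (Real.pi / 4 : ℝ))‖ ≤ K / t ∧
  Real.exp (-(K * t)) ≤ ‖HH (I * t)‖ ∧
  (∀ u : ℂ, ‖u‖ ≤ t / 8 → 0 < (I * t + u).im ∧ DifferentiableAt ℂ HH (I * t + u) ∧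
    ‖HH (I * t + u)‖ ≤ ‖HH (I * t)‖ * Real.exp (Real.log t / 2 * u.re + K * ‖u‖)) ∧
  (∀ u : ℂ, K * ‖u‖ ^ 2 ≤ t →
    ‖HH (I * t + u) - HH (I * t) * cexp (be t * u)‖ ≤
      K * ‖u‖ ^ 2 / t * ‖HH (I * t) * cexp (be t * u)‖) ∧
  ∀ h : ℝ, |h| ≤ t / 16 → ‖HH (I * t)‖ ≤ ‖HH (I * ((t + h : ℝ) : ℂ))‖ * Real.exp (K * |h|) ∧
    ‖HH (I * ((t + h : ℝ) : ℂ))‖ ≤ ‖HH (I * t)‖ * Real.exp (K * |h|)

/-- Task GGH. -/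
def S_GGH : Prop := ∀ κ : ℝ, 0 < κ → ∀ z : ℂ, 0 ≤ z.re →
  Integrable (fun v : ℝ => ((Real.exp (-v ^ 2) : ℝ) : ℂ) *
    HH (z + I * ((2 * Real.sqrt κ * v : ℝ) : ℂ))) ∧
  GG κ z = ((1 / Real.sqrt Real.pi : ℝ) : ℂ) *
    ∫ v : ℝ, ((Real.exp (-v ^ 2) : ℝ) : ℂ) * HH (z + I * ((2 * Real.sqrt κ * v : ℝ) : ℂ))

/-- Task GGC: crude bound for the gamma factor and its flow. -/
def S_GGC : Prop := ∃ K : ℝ, 1 ≤ K ∧ (∀ κ : ℝ, 0 < κ → ∀ z : ℂ, 0 ≤ z.re →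
    ‖GG κ z‖ ≤ Real.exp (K * (1 + z.re) * Real.log (2 + z.re))) ∧
  ∀ z : ℂ, 0 ≤ z.re → ‖HH z‖ ≤ (1 + ‖z‖) ^ 2 * Real.exp (K * (1 + z.re) * Real.log (2 + z.re))

/-- Task GGA: the flow of the gamma factor near `I t`. -/
def S_GGA : Prop := ∀ κ : ℝ, 0 < κ → ∀ K : ℝ, 1 ≤ K → ∃ T0 : ℝ, 2 ≤ T0 ∧ ∀ t : ℝ, T0 ≤ t →
  ∀ u : ℂ, ‖u‖ ≤ K * Real.log t → 0 ≤ u.re →
  ‖GG κ (I * t + u) - HH (I * t) * cexp (be t * u - (κ : ℂ) * be t ^ 2)‖ ≤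
    t ^ (-(9 / 10) : ℝ) * ‖HH (I * t) * cexp (be t * u - (κ : ℂ) * be t ^ 2)‖

/-- Task GGU: upper bound for the flow of the gamma factor further away. -/
def S_GGU : Prop := ∀ κ : ℝ, 0 < κ → ∃ K T0 : ℝ, 1 ≤ K ∧ 2 ≤ T0 ∧ ∀ t : ℝ, T0 ≤ t →
  ∀ u : ℂ, ‖u‖ ≤ t / 16 → 0 ≤ u.re →
  ‖GG κ (I * t + u)‖ ≤ ‖HH (I * t)‖ * Real.exp (Real.log t / 2 * u.re + K * (1 + ‖u‖))

/-- Task TAIL. -/
def S_TAIL : Prop := ∀ κ : ℝ, 0 < κ → ∀ K : ℝ, 1 ≤ K → ∃ M T0 : ℝ, 1 ≤ M ∧ 2 ≤ T0 ∧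
  ∀ t : ℝ, T0 ≤ t → ∀ u : ℂ, ‖u‖ ≤ K * Real.log t → 0 ≤ u.re → ∀ s : Finset ℕ,
  (∀ n ∈ s, t ^ M < (n : ℝ) + 1) → ∑ n ∈ s, ‖XT κ (I * t + u) n‖ ≤ t ^ (-10 : ℝ) * ‖HH (I * t)‖

/-! ## B. The local expansion -/

/-- Task LOC. -/
def S_LOC : Prop := ∀ κ : ℝ, 0 < κ → ∀ K : ℝ, 1 ≤ K → ∃ M T0 : ℝ, 1 ≤ M ∧ 2 ≤ T0 ∧
  ∀ t : ℝ, T0 ≤ t → ∀ u : ℂ, ‖u‖ ≤ K * Real.log t → 0 ≤ u.re →
  ‖XK κ (I * t + u) - HH (I * t) * ∑ n ∈ Finset.Icc 1 ⌊t ^ M⌋₊, tm κ t u n‖ ≤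
    ‖HH (I * t)‖ * (t ^ (-(9 / 10) : ℝ) * ∑ n ∈ Finset.Icc 1 ⌊t ^ M⌋₊, ‖tm κ t u n‖ +
      t ^ (-10 : ℝ))

/-- Task UPP: upper bound on both sides of the line. -/
def S_UPP : Prop := ∀ κ : ℝ, 0 < κ → ∀ K : ℝ, 1 ≤ K → ∃ C T0 : ℝ, 0 < C ∧ 2 ≤ T0 ∧
  ∀ t : ℝ, T0 ≤ t → ∀ u : ℂ, ‖u‖ ≤ K * Real.log t →
  ‖XK κ (I * t + u)‖ ≤ ‖HH (I * t)‖ *
    Real.exp (Real.log t ^ 2 * Vh κ (u.re / Real.log t) + C * Real.log t)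

/-- Task LOWS: lower bound through the local Dirichlet series. -/
def S_LOWS : Prop := ∀ κ : ℝ, 0 < κ → ∃ T0 : ℝ, 2 ≤ T0 ∧ ∀ t : ℝ, T0 ≤ t →
  ∀ θ : ℝ, 0 ≤ θ → θ ≤ 2 * κ * (be t).re →
  ‖HH (I * t)‖ * Real.exp (θ ^ 2 / (4 * κ)) *
    (‖SS κ ((be t).re - θ / (2 * κ)) t‖ - t ^ (-(1 / 2) : ℝ)) ≤ ‖XK κ (I * t + (θ : ℂ))‖

/-- Task LOWD: lower bound where the first term dominates. -/
def S_LOWD : Prop := ∀ κ : ℝ, 0 < κ → ∀ δ : ℝ, 0 < δ → ∀ K : ℝ, 1 ≤ K → ∃ C T0 : ℝ, 0 < C ∧ 2 ≤ T0 ∧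
  ∀ t : ℝ, T0 ≤ t → ∀ u : ℂ, ‖u‖ ≤ K * Real.log t → (κ + δ) * Real.log t ≤ u.re →
  ‖HH (I * t)‖ * Real.exp (Real.log t ^ 2 * Vh κ (u.re / Real.log t) - C * Real.log t) ≤
    ‖XK κ (I * t + u)‖

/-! ## C. The local Dirichlet series is rarely tiny -/

/-- The primes `p` with `a log T + 1 ≤ log p ≤ b log T - 1`. -/
noncomputable def PP (a b T : ℝ) : Finset ℕ := (Finset.range (⌊T ^ b⌋₊ + 1)).filter (fun p : ℕ =>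
  p.Prime ∧ a * Real.log T + 1 ≤ Real.log p ∧ Real.log p ≤ b * Real.log T - 1)

/-- Task MER: primes. -/
def S_MER : Prop := ∀ a b : ℝ, 0 < a → a < b → ∃ c T0 : ℝ, 0 < c ∧ 2 ≤ T0 ∧ ∀ T : ℝ, T0 ≤ T →
  c ≤ ∑ p ∈ PP a b T, 1 / (p : ℝ)

/-- Task MV: mean value with rational frequencies. -/
def S_MV : Prop := ∃ C : ℝ, 0 < C ∧ ∀ (ι : Type) (s : Finset ι) (x : ι → ℂ) (a b : ι → ℕ) (N T : ℝ),
  1 ≤ T → (∀ j ∈ s, 1 ≤ a j ∧ 1 ≤ b j ∧ (a j : ℝ) ≤ N ∧ (b j : ℝ) ≤ N) →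
  ∫ t in T..(2 * T), ‖∑ j ∈ s, x j * cexp (-(I * t * (Real.log ((a j : ℝ) / b j) : ℂ)))‖ ^ 2 ≤
    C * T * (∑ j ∈ s, ∑ k ∈ s, (if a j * b k = a k * b j then ‖x j‖ * ‖x k‖ else 0) +
      (∑ j ∈ s, ‖x j‖) ^ 2 * Real.exp (-(T / (4 * N ^ 2)) ^ 2))

/-- Task D1: the terms with the same prime. -/
def S_D1 : Prop := ∀ κ : ℝ, 0 < κ → ∃ C : ℝ, 0 < C ∧ ∀ (p N : ℕ) (W : ℝ), 1 ≤ W → W ≤ p →
  ∑ n ∈ (Finset.Icc 1 N).filter (fun n => n ≠ p), 1 / (n : ℝ) *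
    Real.exp (-(κ * Real.log ((n : ℝ) / p) ^ 2)) * min 1 (4 / (W * Real.log ((n : ℝ) / p)) ^ 2) ≤ C / W

noncomputable def cc (κ : ℝ) (n : ℕ) : ℂ := cexp (I * ((κ * Real.pi / 2 * Real.log n : ℝ) : ℂ))

noncomputable def Gk (κ A B u v : ℝ) : ℝ :=
  ∫ lam in A..B, Real.exp (-(κ * (u - lam) ^ 2) - κ * (v - lam) ^ 2)

/-- The coefficient of `(n / p)^(-i t)` in the tested and averaged series. -/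
noncomputable def aw (κ A B W : ℝ) (n p : ℕ) : ℂ :=
  ((((n : ℝ) * p) ^ (-(1 / 2) : ℝ) * Gk κ A B (Real.log n) (Real.log p) : ℝ) : ℂ) *
    (cc κ n * (starRingEnd ℂ) (cc κ p)) *
    (((1 / W : ℝ) : ℂ) * ∫ h in (0 : ℝ)..W, cexp (-(I * h * (Real.log ((n : ℝ) / p) : ℂ))))

/-- Task VAR: the variance. -/
def S_VAR : Prop := ∀ κ : ℝ, 0 < κ → ∀ a b γ : ℝ, 0 < a → a < b → b < γ → γ < 1 / 2 →
  ∃ C T0 : ℝ, 0 < C ∧ 2 ≤ T0 ∧ ∀ T : ℝ, T0 ≤ T → ∀ W : ℝ, 1 ≤ W → W ≤ Real.log T ^ 2 →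
  ∫ t in T..(2 * T), ‖∑ q ∈ ((Finset.Icc 1 ⌊T ^ γ⌋₊) ×ˢ PP a b T).filter (fun q => q.1 ≠ q.2),
    aw κ (a * Real.log T) (b * Real.log T) W q.1 q.2 *
      cexp (-(I * t * (Real.log ((q.1 : ℝ) / q.2) : ℂ)))‖ ^ 2 ≤
    C * T * ((∑ p ∈ PP a b T, 1 / (p : ℝ)) / W + ((∑ p ∈ PP a b T, 1 / (p : ℝ)) / W) ^ 2) + C

/-- Task EN: the local Dirichlet series is rarely tiny in a whole box. -/
def S_EN : Prop := ∀ κ : ℝ, 0 < κ → ∀ a b ω η : ℝ, 0 < a → a < b → b < 1 / 2 → 0 < ω → 0 < η →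
  ∃ T0 : ℝ, 2 ≤ T0 ∧ ∀ T : ℝ, T0 ≤ T →
  volume {t0 : ℝ | T ≤ t0 ∧ t0 ≤ 2 * T ∧ ∀ t lam : ℝ, t0 ≤ t → t ≤ t0 + ω * Real.log T →
    a * Real.log T ≤ lam → lam ≤ b * Real.log T → ‖SS κ lam t‖ ≤ T ^ (-(3 / 10) : ℝ)} ≤
    ENNReal.ofReal (η * T)

/-! ## D. Complex analysis -/

/-- Task CA1. -/
def S_CA1 : Prop := ∀ f : ℂ → ℂ, Differentiable ℂ f → (∃ z, f z ≠ 0) →
  LocallyIntegrable (fun z => Real.log ‖f z‖) volume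

/-- Task CA2: area mean. -/
def S_CA2 : Prop := ∀ f : ℂ → ℂ, Differentiable ℂ f → ∀ (c : ℂ) (r : ℝ), 0 < r → f c ≠ 0 →
  Real.pi * r ^ 2 * Real.log ‖f c‖ ≤ ∫ z in Metric.closedBall c r, Real.log ‖f z‖

/-- A closed box. -/
def Bx (a b c d : ℝ) : Set ℂ := {z | a ≤ z.re ∧ z.re ≤ b ∧ c ≤ z.im ∧ z.im ≤ d}

/-- Task CA3: averaged Jensen formula. -/
def S_CA3 : Prop := ∀ f : ℂ → ℂ, Differentiable ℂ f → (∃ z, f z ≠ 0) → ∀ a b c d r : ℝ, 0 < r →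
  a ≤ b → c ≤ d →
  Real.pi * r ^ 2 / 2 * nz f (Bx (a + r) (b - r) (c + r) (d - r)) ≤
    (∫ w in Bx a b c d, (Real.circleAverage (fun z => Real.log ‖f z‖) w r - Real.log ‖f w‖)) ∧
  (∫ w in Bx a b c d, (Real.circleAverage (fun z => Real.log ‖f z‖) w r - Real.log ‖f w‖)) ≤
    Real.pi * r ^ 2 / 2 * nz f (Bx (a - r) (b + r) (c - r) (d + r))

/-- Task CA3F: Fubini for circle averages over a box. -/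
def S_CA3F : Prop := ∀ g : ℂ → ℝ, Measurable g → LocallyIntegrable g volume →
  (∀ w r, CircleIntegrable g w r) → ∀ a b c d r : ℝ, 0 < r → a ≤ b → c ≤ d →
  IntegrableOn (fun w => Real.circleAverage g w r) (Bx a b c d) ∧
  |∫ w in Bx a b c d, Real.circleAverage g w r| ≤ ∫ w in Bx (a - r) (b + r) (c - r) (d + r), |g w|

/-- Task CA4: closeness in mean near a good point. -/
def S_CA4 : Prop := ∀ (κ M δ ρ : ℝ) (f : ℂ → ℂ) (c : ℂ), 0 < κ → 0 < M → 0 < δ → 0 < ρ →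
  Differentiable ℂ f →
  (∀ z, ‖z - c‖ ≤ ρ → ‖f z‖ ≤ Real.exp (M * (Vh κ z.re + δ))) →
  Real.exp (M * (Vh κ c.re - δ)) ≤ ‖f c‖ →
  ∫ z in Metric.closedBall c ρ, |Real.log ‖f z‖ - M * Vh κ z.re| ≤
    Real.pi * ρ ^ 2 * M * (3 * δ + ρ ^ 2 / (16 * κ))

/-- The length of `[X1, X2] ∩ [-κ, κ]`. -/
noncomputable def ell (κ X1 X2 : ℝ) : ℝ := max 0 (min X2 κ - max X1 (-κ))

/-- Task CAF: counting zeros from the profile. -/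
def S_CAF : Prop := ∀ κ X1 X2 ε : ℝ, 0 < κ → -κ - 1 ≤ X1 → X1 ≤ X2 → X2 ≤ κ + 1 → 0 < ε →
  ∃ δ : ℝ, 0 < δ ∧ ∀ (M : ℝ) (f : ℂ → ℂ), 0 < M → Differentiable ℂ f →
  (∀ z : ℂ, |z.re| ≤ κ + 4 → -4 ≤ z.im → z.im ≤ 5 → ‖f z‖ ≤ Real.exp (M * (Vh κ z.re + δ))) →
  (∀ z : ℂ, |z.re| ≤ κ + 2 → -2 ≤ z.im → z.im ≤ 3 →
    ∃ w : ℂ, ‖w - z‖ ≤ δ ∧ Real.exp (M * (Vh κ w.re - δ)) ≤ ‖f w‖) →
  |(nz f {z | X1 ≤ z.re ∧ z.re ≤ X2 ∧ 0 < z.im ∧ z.im ≤ 1} : ℝ) -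
    M * (ell κ X1 X2 / (4 * Real.pi * κ))| ≤ ε * M

/-- Task CB: crude count (Jensen). -/
def S_CB : Prop := ∀ (f : ℂ → ℂ) (c : ℂ) (R A : ℝ) (S : Set ℂ), Differentiable ℂ f → 0 < R →
  (∀ z, ‖z - c‖ ≤ 2 * R → ‖f z‖ ≤ Real.exp A * ‖f c‖) → f c ≠ 0 → S ⊆ Metric.closedBall c R →
  (nz f S : ℝ) ≤ A / Real.log 2

/-! ## E. Assembly -/

/-- Task WIN: one window; the window at height `t0` is good if tiny boxes never occur near it. -/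
def S_WIN : Prop := ∀ κ δ : ℝ, 0 < κ → 0 < δ → ∃ (m : ℕ) (a b : Fin m → ℝ) (ω T0 : ℝ), 0 < ω ∧
  2 ≤ T0 ∧ (∀ i, 0 < a i ∧ a i < b i ∧ b i < 1 / 2) ∧ ∀ T t0 : ℝ, T0 ≤ T → T ≤ t0 → t0 ≤ 2 * T →
  (∀ z : ℂ, |z.re| ≤ κ + 4 → -4 ≤ z.im → z.im ≤ 5 →
    ‖XK κ (I * t0 + (Real.log T : ℂ) * z)‖ ≤
      ‖HH (I * t0)‖ * Real.exp (Real.log T ^ 2 * (Vh κ z.re + δ))) ∧
  ((∀ (i : Fin m) (s : ℝ), t0 - 4 * Real.log T ≤ s → s ≤ t0 + 5 * Real.log T →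
      ∃ t lam : ℝ, s ≤ t ∧ t ≤ s + ω * Real.log T ∧
        a i * Real.log T ≤ lam ∧ lam ≤ b i * Real.log T ∧ T ^ (-(1 / 3) : ℝ) < ‖SS κ lam t‖) →
    ∀ z : ℂ, |z.re| ≤ κ + 2 → -2 ≤ z.im → z.im ≤ 3 →
    ∃ w : ℂ, ‖w - z‖ ≤ δ ∧ ‖HH (I * t0)‖ * Real.exp (Real.log T ^ 2 * (Vh κ w.re - δ)) ≤
      ‖XK κ (I * t0 + (Real.log T : ℂ) * w)‖)

/-- Task CRU: crude count in one window. -/
def S_CRU : Prop := ∀ κ : ℝ, 0 < κ → ∃ C T0 : ℝ, 0 < C ∧ 2 ≤ T0 ∧ ∀ T t0 : ℝ, T0 ≤ T → T ≤ t0 →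
  t0 ≤ 2 * T → ∀ S : Set ℂ, (∀ z ∈ S, |z.re| ≤ (κ + 1) * Real.log T ∧ t0 ≤ z.im ∧
    z.im ≤ t0 + 2 * Real.log T) → (nz (XK κ) S : ℝ) ≤ C * Real.log T ^ 2

/-- Task CNT: zeros in a dyadic block. -/
def S_CNT : Prop := ∀ κ X1 X2 : ℝ, 0 < κ → -κ - 1 ≤ X1 → X1 ≤ X2 → X2 ≤ κ + 1 →
  Tendsto (fun T : ℝ => (nz (XK κ) {z | X1 * Real.log T ≤ z.re ∧ z.re ≤ X2 * Real.log T ∧
    T < z.im ∧ z.im ≤ 2 * T} : ℝ) / (T * Real.log T)) atTop (𝓝 (ell κ X1 X2 / (4 * Real.pi * κ)))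

/-- Task TOT: all zeros in a disc. -/
def S_TOT : Prop := ∀ κ : ℝ, 0 < κ →
  Tendsto (fun R : ℝ => (nz (XK κ) {z | ‖z‖ ≤ R} : ℝ) / (R * Real.log R)) atTop (𝓝 (1 / Real.pi))

/-- Task DSC: zeros in the part of a disc between two heights. -/
def S_DSC : Prop := ∀ κ X1 X2 : ℝ, 0 < κ → -κ ≤ X1 → X1 ≤ X2 → X2 ≤ κ →
  Tendsto (fun R : ℝ => (nz (XK κ) {z | ‖z‖ ≤ R ∧ X1 * Real.log R ≤ z.re ∧ z.re ≤ X2 * Real.log R} :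
    ℝ) / (R * Real.log R)) atTop (𝓝 ((X2 - X1) / (2 * Real.pi * κ)))

/-- Task FIN: the theorem. -/
def S_FIN : Prop := ∀ t : ℝ, t < 0 →
  Tendsto (fun R : ℝ => (nz (Ht t) {z | ‖z‖ ≤ R} : ℝ) / (R * Real.log R)) atTop
    (𝓝 (1 / (2 * Real.pi))) ∧
  ∀ a b : ℝ, -1 ≤ a → a ≤ b → b ≤ 1 →
  Tendsto (fun R : ℝ => (nz (Ht t) {z | ‖z‖ ≤ R ∧ a * (|t| / 2 * Real.log R) ≤ z.im ∧
    z.im ≤ b * (|t| / 2 * Real.log R)} : ℝ) / (nz (Ht t) {z | ‖z‖ ≤ R} : ℝ)) atTop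
    (𝓝 ((b - a) / 2))

end Pool.Agent.W475.BH
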